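import Pool.Agent.H59.LIN.Targets

set_option autoImplicit false

open Finset Polynomial Pool.Agent.H59.LIN

namespace Pool.Agent.H25.LIN

namespace BRaux

/-- the double positions, the letters being numbered from `k` -/
def dp {n : ℕ} : ℕ → SWd n → Finset ℕ
  | _, [] => ∅
  | k, (_, some _) :: w => dp (k + 1) w
  | k, (_, none) :: w => insert k (dp (k + 1) w)

theorem mem_dp {n : ℕ} (w : SWd n) : ∀ k x : ℕ,
    x ∈ dp k w ↔ ∃ m i, x = k + m ∧ w[m]? = some (i, none) := by
  induction w with
  | nil =>
    intro k x
    simp [dp]
  | cons a w ih =>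
    intro k x
    obtain ⟨i, s⟩ := a
    rcases s with _ | b
    · rw [dp, mem_insert, ih (k + 1) x]
      constructor
      · rintro (rfl | ⟨m, j, h1, h2⟩)
        · exact ⟨0, i, rfl, rfl⟩
        · exact ⟨m + 1, j, by omega, by simpa using h2⟩
      · rintro ⟨m, j, h1, h2⟩
        rcases m with _ | m
        · left
          omega
        · right
          exact ⟨m, j, by omega, by simpa using h2⟩
    · rw [dp, ih (k + 1) x]
      constructor
      · rintro ⟨m, j, h1, h2⟩
        exact ⟨m + 1, j, by omega, by simpa using h2⟩
      · rintro ⟨m, j, h1, h2⟩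
        rcases m with _ | m
        · simp at h2
        · exact ⟨m, j, by omega, by simpa using h2⟩

theorem le_of_mem_dp {n : ℕ} {w : SWd n} {k x : ℕ} (h : x ∈ dp k w) : k ≤ x := by
  obtain ⟨m, i, h1, -⟩ := (mem_dp w k x).1 h
  omega

theorem notMem_dp {n : ℕ} (w : SWd n) (k : ℕ) : k ∉ dp (k + 1) w := by
  intro h
  have := le_of_mem_dp h
  omega

theorem card_dp {n : ℕ} (w : SWd n) : ∀ k : ℕ, (dp k w).card = dbl w := by
  induction w with
  | nil =>
    intro k
    simp [dp, dbl]
  | cons a w ih =>
    intro k
    obtain ⟨i, s⟩ := a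
    rcases s with _ | b
    · rw [dp, card_insert_of_notMem (notMem_dp w k), ih (k + 1)]
      simp [dbl]
    · rw [dp, ih (k + 1)]
      simp [dbl]

theorem res_congr {n : ℕ} (w : SWd n) : ∀ (k : ℕ) (e e' : ℕ → Bool),
    (∀ x ∈ dp k w, e x = e' x) → res k w e = res k w e' := by
  induction w with
  | nil =>
    intro k e e' _
    rfl
  | cons a w ih =>
    intro k e e' h
    obtain ⟨i, s⟩ := a
    rcases s with _ | b
    · rw [dp] at h
      have h1 : e k = e' k := h k (mem_insert_self _ _)
      have h2 := ih (k + 1) e e' fun x hx => h x (mem_insert_of_mem hx)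
      simp only [res, Option.getD_none, h1, h2]
    · rw [dp] at h
      have h2 := ih (k + 1) e e' h
      simp only [res, Option.getD_some, h2]

theorem ext_eq {R : Type} [CommRing R] {n : ℕ} (v : Wd n → R) (w : SWd n) :
    ∀ (k : ℕ) (u : Wd n), Pool.Agent.H59.LIN.ext v u w = ∑ S ∈ (dp k w).powerset,
      (-1) ^ S.card * v (u ++ res k w fun x => decide (x ∉ S)) := by
  induction w with
  | nil =>
    intro k u
    simp [Pool.Agent.H59.LIN.ext, dp, res]
  | cons a w ih =>
    intro k u
    obtain ⟨i, s⟩ := a
    rcases s with _ | b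
    · rw [Pool.Agent.H59.LIN.ext, ih (k + 1), ih (k + 1), dp, sum_powerset_insert (notMem_dp w k), sub_eq_add_neg,
        ← sum_neg_distrib]
      refine congrArg₂ (· + ·) ?_ ?_
      · refine sum_congr rfl fun S hS => ?_
        have hk : k ∉ S := fun h => notMem_dp w k (mem_powerset.1 hS h)
        simp only [res, Option.getD_none, hk, not_false_eq_true, decide_true,
          List.append_assoc, List.singleton_append]
      · refine sum_congr rfl fun S hS => ?_
        have hk : k ∉ S := fun h => notMem_dp w k (mem_powerset.1 hS h)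
        have h1 : res (k + 1) w (fun x => decide (x ∉ insert k S)) =
            res (k + 1) w (fun x => decide (x ∉ S)) := by
          refine res_congr w (k + 1) _ _ fun x hx => ?_
          have hx' := le_of_mem_dp hx
          have hxk : x ≠ k := by omega
          simp [mem_insert, hxk]
        rw [card_insert_of_notMem hk, pow_succ, res, h1]
        simp only [Option.getD_none, mem_insert_self, not_true_eq_false, decide_false,
          List.append_assoc, List.singleton_append]
        ring
    · rw [Pool.Agent.H59.LIN.ext, ih (k + 1), dp]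
      refine sum_congr rfl fun S _ => ?_
      simp only [res, Option.getD_some, List.append_assoc, List.singleton_append]

end BRaux

open BRaux

theorem pf_BR : Pool.Agent.H59.LIN.T_BR := by
  constructor
  · intro R _ n v w d t ε ht hw
    have hdp : ∀ x, x ∈ dp 0 w ↔ ∃ a, t a = x := by
      intro x
      rw [mem_dp, hw x]
      constructor
      · rintro ⟨m, i, h1, h2⟩
        rw [zero_add] at h1
        rw [h1]
        exact ⟨i, h2⟩
      · rintro ⟨i, h⟩
        exact ⟨x, i, (zero_add x).symm, h⟩
    rw [ext_eq v w 0 []]
    unfold Dif cb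
    symm
    refine Finset.sum_nbij' (fun S => S.image t)
      (fun T => univ.filter fun a => t a ∈ T) ?_ ?_ ?_ ?_ ?_
    · intro S _
      rw [mem_powerset]
      intro x hx
      obtain ⟨a, -, ha⟩ := mem_image.1 hx
      exact (hdp x).2 ⟨a, ha⟩
    · intro T _
      exact mem_powerset.2 (subset_univ _)
    · intro S _
      ext a
      simp only [mem_filter, mem_univ, true_and, mem_image]
      constructor
      · rintro ⟨b, hb, hab⟩
        rwa [← ht hab]
      · intro h
        exact ⟨a, h, rfl⟩
    · intro T hT
      ext x
      simp only [mem_filter, mem_univ, true_and, mem_image]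
      constructor
      · rintro ⟨a, ha, rfl⟩
        exact ha
      · intro hx
        obtain ⟨a, ha⟩ := (hdp x).1 (mem_powerset.1 hT hx)
        exact ⟨a, by rwa [ha], ha⟩
    · intro S _
      have h1 : res 0 w (pus t fun x => if x ∈ (univ : Finset (Fin d)) then decide (x ∉ S)
          else ε x) = res 0 w fun x => decide (x ∉ S.image t) := by
        refine res_congr w 0 _ _ fun x hx => ?_
        obtain ⟨a, rfl⟩ := (hdp x).1 hx
        unfold pus
        rw [decide_eq_decide]
        constructor
        · rintro ⟨b, hb, hb2⟩
          simp only [mem_univ, if_true, decide_eq_true_iff] at hb2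
          intro h
          obtain ⟨c, hc, hc2⟩ := mem_image.1 h
          rw [ht hb] at hb2
          rw [ht hc2] at hc
          exact hb2 hc
        · intro h
          refine ⟨a, rfl, ?_⟩
          simp only [mem_univ, if_true, decide_eq_true_iff]
          intro h2
          exact h (mem_image_of_mem t h2)
      rw [h1, card_image_of_injective S ht, List.nil_append]
  · intro n w
    refine ⟨(dp 0 w).orderEmbOfFin (card_dp w 0), (orderEmbOfFin _ _).injective, ?_⟩
    intro x
    have h1 : (∃ a, (dp 0 w).orderEmbOfFin (card_dp w 0) a = x) ↔ x ∈ dp 0 w := by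
      rw [← Finset.mem_coe, ← Finset.range_orderEmbOfFin (dp 0 w) (card_dp w 0)]
      rfl
    rw [h1, mem_dp]
    constructor
    · rintro ⟨m, i, h1, h2⟩
      rw [zero_add] at h1
      rw [h1]
      exact ⟨i, h2⟩
    · rintro ⟨i, h⟩
      exact ⟨x, i, (zero_add x).symm, h⟩

end Pool.Agent.H25.LIN


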